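import Pool.Agent.Helper97.Hyp.BasePt

set_option autoImplicit false

namespace Pool.Agent.Results.MP_ebddb6_al.SharpHalf

open Filter Topology

/-- Geodesic metric spaces: any two points are the ends of an isometrically embedded segment. -/
def GeodesicSpace (X : Type*) [MetricSpace X] : Prop :=
  ∀ x y : X, ∃ c : ℝ → X, c 0 = x ∧ c (dist x y) = y ∧
    ∀ s ∈ Set.Icc 0 (dist x y), ∀ t ∈ Set.Icc 0 (dist x y), dist (c s) (c t) = |s - t|

/-- The Gromov product of `x` and `y` based at `w`. -/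
noncomputable def gromovProduct {X : Type*} [MetricSpace X] (x y w : X) : ℝ :=
  (dist x w + dist y w - dist x y) / 2

/-- Gromov hyperbolic metric spaces. -/
def GromovHyperbolic (X : Type*) [MetricSpace X] : Prop :=
  ∃ δ : ℝ, ∀ x y z w : X,
    min (gromovProduct x y w) (gromovProduct y z w) - δ ≤ gromovProduct x z w

/-- `Γ` is a discrete subgroup of the isometry group, for the topology of uniform convergence on
compact sets: some neighbourhood of the identity meets `Γ` only in the identity. -/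
def IsDiscreteSubgroup {X : Type*} [MetricSpace X] (Γ : Subgroup (X ≃ᵢ X)) : Prop :=
  ∃ K : Set X, IsCompact K ∧ ∃ ε : ℝ, 0 < ε ∧
    ∀ γ ∈ Γ, (∀ x ∈ K, dist (γ x) x < ε) → γ = 1

/-- `Γ` acts cocompactly: the translates of some compact set cover the space. -/
def IsCocompactSubgroup {X : Type*} [MetricSpace X] (Γ : Subgroup (X ≃ᵢ X)) : Prop :=
  ∃ K : Set X, IsCompact K ∧ ∀ x : X, ∃ γ ∈ Γ, γ x ∈ K

/-- `Γ` is non-elementary: it has no cyclic subgroup of finite index. -/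
def IsNonElementary {X : Type*} [MetricSpace X] (Γ : Subgroup (X ≃ᵢ X)) : Prop :=
  ∀ g : Γ, ¬ (Subgroup.zpowers g).FiniteIndex

/-- The critical exponent (exponential growth rate) of a group `H` of isometries, with base
point `o`. -/
noncomputable def critExp {X : Type*} [MetricSpace X] (o : X) (H : Subgroup (X ≃ᵢ X)) : ℝ :=
  limsup (fun R : ℝ =>
    1 / R * Real.log (Nat.card {h : X ≃ᵢ X // h ∈ H ∧ dist o (h o) ≤ R} : ℝ)) atTop

open Pool.Agent.Helper97.Hyp in
lemma critExp_eq {X : Type*} [MetricSpace X] (Γ : Subgroup (X ≃ᵢ X)) [MulAction Γ X]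
    (hact : ∀ (γ : Γ) (x : X), γ • x = (γ : X ≃ᵢ X) x) (o : X) (H : Subgroup Γ) :
    critExp o (H.map Γ.subtype) = dexp o (H : Set Γ) := by
  unfold critExp dexp
  congr 1
  ext R
  have h1 : Nat.card {h : X ≃ᵢ X // h ∈ H.map Γ.subtype ∧ dist o (h o) ≤ R} =
      {γ : Γ | γ ∈ (H : Set Γ) ∧ dist o (γ • o) ≤ R}.ncard := by
    have h2 : {h : X ≃ᵢ X | h ∈ H.map Γ.subtype ∧ dist o (h o) ≤ R} =
        Subtype.val '' {γ : Γ | γ ∈ (H : Set Γ) ∧ dist o (γ • o) ≤ R} := by
      ext h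
      constructor
      · rintro ⟨⟨γ, hγ, rfl⟩, hd⟩
        refine ⟨γ, ⟨hγ, ?_⟩, rfl⟩
        rw [hact]; exact hd
      · rintro ⟨γ, ⟨hγ, hd⟩, rfl⟩
        rw [hact] at hd
        exact ⟨⟨γ, hγ, rfl⟩, hd⟩
    rw [← Set.ncard_image_of_injective _ Subtype.val_injective, ← h2]
    rfl
  rw [h1, one_div, inv_mul_eq_div]

/-- The lower bound one half is always sharp. -/
theorem result {X : Type*} [MetricSpace X] [ProperSpace X] (hgeo : GeodesicSpace X)
    (hhyp : GromovHyperbolic X) (Γ : Subgroup (X ≃ᵢ X)) (hdisc : IsDiscreteSubgroup Γ)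
    (hcoc : IsCocompactSubgroup Γ) (hne : IsNonElementary Γ) :
    ∃ N : ℕ → Subgroup (X ≃ᵢ X),
      (∀ i, N i ≤ Γ ∧ (∀ γ ∈ Γ, ∀ n ∈ N i, γ * n * γ⁻¹ ∈ N i) ∧
        (N i : Set (X ≃ᵢ X)).Infinite) ∧
      ∀ o : X, 0 < critExp o Γ ∧
        Tendsto (fun i => critExp o (N i) / critExp o Γ) atTop (𝓝 (1 / 2)) := by
  classical
  let act : MulAction Γ X :=
    { smul := fun γ x => (γ : X ≃ᵢ X) x
      one_smul := fun _ => rfl
      mul_smul := fun _ _ _ => rfl }
  have hact : ∀ (γ : Γ) (x : X), γ • x = (γ : X ≃ᵢ X) x := fun _ _ => rfl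
  have : IsIsometricSMul Γ X := ⟨fun γ => (γ : X ≃ᵢ X).isometry⟩
  have hX : Nonempty X := by
    by_contra hX
    rw [not_nonempty_iff] at hX
    have hs : Subsingleton (X ≃ᵢ X) := ⟨fun f g => IsometryEquiv.ext fun x => hX.elim x⟩
    have hf : Finite Γ := inferInstance
    exact hne 1 Subgroup.finiteIndex_of_finite_quotient
  obtain ⟨o⟩ := hX
  obtain ⟨δ, hδ⟩ := hhyp
  have hyp : Pool.Agent.Helper97.Hyp.GHyp X δ := by
    intro x y z w
    have h1 := hδ x z y w
    simp only [gromovProduct] at h1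
    rcases le_total (dist x w + dist z w - dist x z) (dist z w + dist y w - dist z y) with h2 | h2
    · rw [min_eq_left (by linarith)] at h1
      have := le_max_left (dist x z + dist y w) (dist x w + dist y z)
      linarith
    · rw [min_eq_right (by linarith)] at h1
      have := le_max_right (dist x z + dist y w) (dist x w + dist y z)
      rw [dist_comm z y] at h1
      linarith
  have geo : Pool.Agent.Helper97.Hyp.Geo X := by
    intro x y t ht0 ht1
    obtain ⟨c, hc0, hc1, hc⟩ := hgeo x y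
    have h0 : (0 : ℝ) ∈ Set.Icc 0 (dist x y) := ⟨le_rfl, dist_nonneg⟩
    have h1 : dist x y ∈ Set.Icc 0 (dist x y) := ⟨dist_nonneg, le_rfl⟩
    have ht : t ∈ Set.Icc 0 (dist x y) := ⟨ht0, ht1⟩
    refine ⟨c t, ?_, ?_⟩
    · have := hc 0 h0 t ht
      rw [hc0] at this
      rw [this, zero_sub, abs_neg, abs_of_nonneg ht0]
    · have := hc t ht _ h1
      rw [hc1] at this
      rw [this, abs_sub_comm, abs_of_nonneg (by linarith)]
  obtain ⟨K, hK, ε, hε, hKε⟩ := hdisc
  have hprop : ∀ r : ℝ, {γ : Γ | dist o (γ • o) ≤ r}.Finite := by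
    intro r
    have h1 := Pool.Agent.Helper97.Hyp.finite_of_discrete Γ hK hε hKε o r
    apply (h1.preimage (Set.injOn_of_injective Subtype.val_injective)).subset
    intro γ hγ
    exact ⟨γ.2, hγ⟩
  obtain ⟨K', hK', hcov⟩ := hcoc
  obtain ⟨C₀, hC₀⟩ := hK'.isBounded.subset_closedBall o
  have hco : Pool.Agent.Helper97.Hyp.Cobdd Γ o C₀ := by
    intro z
    obtain ⟨γ, hγ, hz⟩ := hcov z
    refine ⟨⟨γ, hγ⟩⁻¹, ?_⟩
    have h1 : dist (γ z) o ≤ C₀ := hC₀ hz
    have h2 : dist z ((⟨γ, hγ⟩ : Γ)⁻¹ • o) = dist (γ z) o := by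
      rw [← dist_smul (⟨γ, hγ⟩ : Γ) z, smul_inv_smul]
      rfl
    rw [h2]
    exact h1
  obtain ⟨hpos, N, hN, hlim⟩ := Pool.Agent.Helper97.Hyp.main_cocompact hyp geo hprop hco hne
  have hexp := Pool.Agent.Helper97.Hyp.exp_bound geo hprop hco
  have htop : ∀ o' : X, critExp o' Γ =
      Pool.Agent.Helper97.Hyp.dexp o (Set.univ : Set Γ) := by
    intro o'
    have h1 := critExp_eq Γ hact o' (⊤ : Subgroup Γ)
    rw [← MonoidHom.range_eq_map, Subgroup.range_subtype] at h1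
    rw [h1]
    exact Pool.Agent.Helper97.Hyp.dexp_change hprop hexp (Set.mem_univ _)
  have hNi : ∀ (o' : X) (i : ℕ), critExp o' ((N i).map Γ.subtype) =
      Pool.Agent.Helper97.Hyp.dexp o (N i : Set Γ) := by
    intro o' i
    rw [critExp_eq Γ hact o' (N i)]
    exact Pool.Agent.Helper97.Hyp.dexp_change hprop hexp (one_mem _)
  refine ⟨fun i => (N i).map Γ.subtype, ?_, fun o' => ⟨by rw [htop]; exact hpos, ?_⟩⟩
  · intro i
    refine ⟨Subgroup.map_subtype_le _, ?_, ?_⟩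
    · rintro γ hγ _ ⟨n, hn, rfl⟩
      exact ⟨⟨γ, hγ⟩ * n * ⟨γ, hγ⟩⁻¹, (hN i).1.conj_mem n hn _, rfl⟩
    · rw [Subgroup.coe_map]
      exact (hN i).2.image (Set.injOn_of_injective Subtype.val_injective)
  · simp only [htop, hNi]
    exact hlim

end Pool.Agent.Results.MP_ebddb6_al.SharpHalf
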